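import Pool.Agent.MP_3ee8cb_gt.DN.Spec
import Pool.Agent.MP_3ee8cb_gt.LV.All
import Pool.Agent.MP_3ee8cb_gt.CR.RSCALE

/-! Reduction to the upper curvature bound minus one by scaling both metrics. -/

namespace Pool.Agent.MP_3ee8cb_gt.DZS

open CR DN
open LV (QP CJ)

theorem chr {n : ℕ} (c : ℝ) {g : Met n} {C : TB.Chr n} (h : TB.IsChr g C) :
    TB.IsChr (scale_m c g) C := fun x u v w => by
  have h3 : fderiv ℝ (scale_m c g) = (c * c)⁻¹ • fderiv ℝ g :=
    fderiv_const_smul_field (𝕜 := ℝ) (f := g) (c * c)⁻¹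
  rw [h3, scale_app]
  simp only [Pi.smul_apply, smul_apply, smul_eq_mul]
  linear_combination (c * c)⁻¹ * h x u v w

theorem exists_chr {n : ℕ} {g : Met n} (hg : Riem g) : ∃ C, TB.IsChr g C := by
  obtain ⟨G, hG⟩ := LV.chr n g hg
  refine ⟨G, fun x u v w => ?_⟩
  rw [hG.compat, hG.compat, hG.compat, hG.symm x v u, hG.symm x u w, hG.symm x v w,
    hg.symm x (G x w u) v, hg.symm x u (G x w v)]
  ring

variable [Dim]

theorem qp {c : ℝ} (hc : c ≠ 0) {g : Met dm} {Γ : Type} [Group Γ] [MulAction Γ V]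
    {Φ : ℝ → UT g → UT g} (q : QP g Γ Φ) : QP (scale_m c g) Γ (scale_f hc Φ) :=
  LV.all_qp (Nat.succ_pos _) (scale_riem hc q.rp.riem) (scale_deck c q.rp.deck)
    (scale_flow hc q.rp.flow)

theorem cj {c : ℝ} (hc : c ≠ 0) {g h : Met dm} {Γ Λ : Type} [Group Γ] [Group Λ] [MulAction Γ V]
    [MulAction Λ V] {Φ : ℝ → UT g → UT g} {Ψ : ℝ → UT h → UT h} {ρ : Γ ≃* Λ}
    {F : UT g ≃ₜ UT h} (j : CJ g h Φ Ψ ρ F) :
    CJ (scale_m c g) (scale_m c h) (scale_f hc Φ) (scale_f hc Ψ) ρ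
      ((scale_s hc g).trans (F.trans (scale_s hc h).symm)) where
  flow t p := by
    simp only [Homeomorph.trans_apply, scale_f, Homeomorph.apply_symm_apply, j.flow]
  equi γ p q e := by
    have e1 : (scale_s hc g q).1 = tm γ (scale_s hc g p).1 := by
      change (q.1.1, c⁻¹ • q.1.2) = tm γ (p.1.1, c⁻¹ • p.1.2)
      rw [e]
      simp only [tm, map_smul]
    have e2 := j.equi γ _ _ e1
    change ((F (scale_s hc g q)).1.1, c • (F (scale_s hc g q)).1.2) =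
      tm (ρ γ) ((F (scale_s hc g p)).1.1, c • (F (scale_s hc g p)).1.2)
    rw [e2]
    simp only [tm, map_smul]

/-- Rigidity when the curvature of the target lies between `-(1 + δ)` and `-1`. -/
def Main1 (δ : ℝ) : Prop := On2 fun g h _ C' _ _ _ _ _ _ _ _ ρ _ =>
  Pin h C' 1 (1 + δ) → Iso g h ρ

/-- Rigidity for a pinched target. -/
def MainZ (δ : ℝ) : Prop := On2 fun g h _ C' _ _ _ _ _ _ _ _ ρ _ => ∀ a hi : ℝ, 0 < a →
  hi ≤ (1 + δ) * a ^ 2 → Pin h C' (a ^ 2) hi → Iso g h ρ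

theorem scale {δ : ℝ} (A : Main1 δ) : MainZ δ := by
  intro g h C C' Γ Λ _ _ _ _ Φ Ψ ρ F qg qh c c' dg dh j a hi ha hb K
  have hc : a⁻¹ ≠ 0 := inv_ne_zero ha.ne'
  have e : (a⁻¹ * a⁻¹)⁻¹ = a ^ 2 := by rw [mul_inv, inv_inv, sq]
  have a2 : 0 < a ^ 2 := pow_pos ha 2
  obtain ⟨G, h1, h2, h3, h4⟩ := A (scale_m a⁻¹ g) (scale_m a⁻¹ h) C C' Γ Λ _ _ ρ _ (qp hc qg)
    (qp hc qh) (chr _ c) (chr _ c') dg dh (cj hc j) (fun x u v => by
      simp only [scale_app, e]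
      have q := sub_nonneg.2 (TB.mod_cs qh.rp.riem x u v)
      have k1 := mul_le_mul_of_nonneg_left (K x u v).1 a2.le
      have k2 := mul_le_mul_of_nonneg_left (K x u v).2 a2.le
      have k3 := mul_le_mul_of_nonneg_left (mul_le_mul_of_nonneg_right hb q) a2.le
      constructor
      · linarith
      · linarith)
  refine ⟨G, h1, h2, fun x u v => ?_, h4⟩
  have := h3 x u v
  rw [scale_app, scale_app, e] at this
  exact mul_left_cancel₀ a2.ne' this

end Pool.Agent.MP_3ee8cb_gt.DZS
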