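import Pool.Agent.MP_3ee8cb_gt.DZS.Scale
import Pool.Agent.MP_3ee8cb_gt.SLN.Link
import Pool.Agent.MP_3ee8cb_gt.SL3.Defs

/-! From the theorem for the lifted conjugacy to the statement in every dimension. -/

namespace Pool.Agent.MP_3ee8cb_gt.DZS

open DN (Dim dm)
open Pool.Agent.MP_3ee8cb_gt.SL

theorem finZ [Dim] {δ : ℝ} (A : MainZ δ)
    (g h : Met dm) (Γ Λ : Type) [Group Γ] [Group Λ] [MulAction Γ (E dm)] [MulAction Λ (E dm)]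
    (Φ : ℝ → UT g → UT g) (Ψ : ℝ → UT h → UT h) (f : UM g Γ ≃ₜ UM h Λ) (hg : Riem g)
    (hh : Riem h) (dg : Deck g Γ) (dh : Deck h Λ) (sg : SL3.Smooth g Γ) (sh : SL3.Smooth h Λ)
    (fg : IsFlow g Φ) (fh : IsFlow h Ψ) (hf : Conj Φ Ψ f) (hN : SL3.Pinched h (1 + δ)) :
    SL3.Isometric g h Γ Λ := by
  obtain ⟨g, rfl, rg⟩ := link_riem hg
  obtain ⟨h, rfl, rh⟩ := link_riem hh
  have n0 : 3 ≤ dm := Nat.le_add_left 3 _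
  have qg := LV.all_qp (by omega) rg (link_deck dg) (link_flow rg fg)
  have qh := LV.all_qp (by omega) rh (link_deck dh) (link_flow rh fh)
  obtain ⟨ρ, F, cj, -⟩ := LV.lift2 dm g h Γ Λ Φ Ψ f n0 qg.rp qh.rp hf
  obtain ⟨a, b, ha, hb, C', c', K⟩ := SLN.link_pin rh hN
  obtain ⟨C, c⟩ := exists_chr rg
  obtain ⟨G, hG⟩ := A g h C C' Γ Λ Φ Ψ ρ F qg qh c c' (sg.act 2) (sh.act 2) cj a (b ^ 2) ha hb.le
    fun x u v => (K x u v).symm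
  exact ⟨G, ρ, hG⟩

/-- Topological conjugacies, every dimension, no hypothesis on the curvature of `g`. -/
theorem allZ (A : ∀ [Dim], ∃ δ, 0 < δ ∧ Main1 δ) (n : ℕ) (hn : 3 ≤ n) :
    ∃ k : ℝ, 1 < k ∧ ∀ (g h : Met n) (Γ Λ : Type) [Group Γ] [Group Λ]
      [MulAction Γ (E n)] [MulAction Λ (E n)] (Φ : ℝ → UT g → UT g) (Ψ : ℝ → UT h → UT h)
      (f : UM g Γ ≃ₜ UM h Λ), Riem g → Riem h → Deck g Γ → Deck h Λ → SL3.Smooth g Γ →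
      SL3.Smooth h Λ → IsFlow g Φ → IsFlow h Ψ → Conj Φ Ψ f → SL3.Pinched h k →
      SL3.Isometric g h Γ Λ := by
  obtain ⟨j, rfl⟩ : ∃ j, n = j + 3 := ⟨n - 3, by omega⟩
  obtain ⟨δ, hδ, A⟩ := @A ⟨j⟩
  exact ⟨1 + δ, by linarith, @finZ ⟨j⟩ δ (@scale ⟨j⟩ δ A)⟩

end Pool.Agent.MP_3ee8cb_gt.DZS
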